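import Pool.Agent.Helper37.OWN.ConnSets

/-!
The density of the connected sets of a connected graph of minimum degree at least three is at
least `1 / 2 + 1 / (2 N)`, where `N` is their number, with equality for complete graphs.
-/

set_option autoImplicit false

universe u

namespace Pool.Agent.Results.MP_2e5503_co.SharpDensity

open Classical in
/-- the connected sets of a graph: the nonempty vertex sets that induce a connected subgraph -/
noncomputable def connSets {V : Type u} [Fintype V] (G : SimpleGraph V) : Finset (Finset V) :=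
  Finset.univ.filter fun U : Finset V => U.Nonempty ∧ (G.induce (U : Set V)).Connected

/-- the density of the connected sets: their average size divided by the number of vertices -/
noncomputable def density {V : Type u} [Fintype V] (G : SimpleGraph V) : ℝ :=
  (∑ U ∈ connSets G, (U.card : ℝ)) / (connSets G).card / Fintype.card V

theorem connSets_eq {V : Type u} [Fintype V] (G : SimpleGraph V) :
    connSets G = Helper37.OWN.ConnSets.CS G := by
  classical
  ext U
  unfold connSets Helper37.OWN.ConnSets.CS
  simp only [Finset.mem_filter, Finset.mem_univ, true_and]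
  exact ⟨fun h => h.2, fun h => ⟨Helper37.OWN.ConnSets.cn_nonempty h, h⟩⟩

theorem lower {V : Type u} [Fintype V] (G : SimpleGraph V) (hG : G.Connected)
    (hdeg : ∀ v, 3 ≤ (G.neighborSet v).ncard) :
    Fintype.card V * (connSets G).card + Fintype.card V ≤ 2 * ∑ U ∈ connSets G, U.card := by
  classical
  rw [connSets_eq]
  have h := Helper37.OWN.ConnSets.main_ineq (G := G) hG ?_
  · exact h
  · intro v S hS
    by_contra hcon
    push Not at hcon
    have h1 : G.neighborSet v ⊆ (S : Set V) := fun u hu => hcon u hu
    have h2 := Set.ncard_le_ncard h1 (Finset.finite_toSet S)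
    rw [Set.ncard_coe_finset] at h2
    have h3 := hdeg v
    omega

theorem card_pos {V : Type u} [Fintype V] (G : SimpleGraph V) (v : V) :
    0 < (connSets G).card := by
  rw [connSets_eq]
  exact Finset.card_pos.mpr
    ⟨{v}, Helper37.OWN.ConnSets.mem_CS.mpr (Helper37.OWN.ConnSets.cn_singleton v)⟩

theorem connSets_top (n : ℕ) :
    connSets (⊤ : SimpleGraph (Fin n)) = Finset.univ.filter fun U : Finset (Fin n) => U.Nonempty := by
  classical
  ext U
  unfold connSets
  simp only [Finset.mem_filter, Finset.mem_univ, true_and, and_iff_left_iff_imp]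
  intro hU
  obtain ⟨x, hx⟩ := hU
  have : Nonempty (U : Set (Fin n)) := ⟨⟨x, hx⟩⟩
  have h1 : (⊤ : SimpleGraph (Fin n)).induce (U : Set (Fin n)) = ⊤ := by
    ext a b
    rw [SimpleGraph.comap_adj, SimpleGraph.top_adj, SimpleGraph.top_adj]
    exact not_congr Subtype.val_inj
  rw [h1]
  exact SimpleGraph.connected_top

theorem card_top (n : ℕ) : (connSets (⊤ : SimpleGraph (Fin n))).card + 1 = 2 ^ n := by
  classical
  rw [connSets_top]
  have h1 := Finset.card_filter_add_card_filter_not
    (s := (Finset.univ : Finset (Finset (Fin n)))) (fun U : Finset (Fin n) => U.Nonempty)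
  have h2 : (Finset.univ.filter fun U : Finset (Fin n) => ¬ U.Nonempty) = {∅} := by
    ext U
    simp [Finset.not_nonempty_iff_eq_empty]
  rw [h2, Finset.card_singleton, Finset.card_univ, Fintype.card_finset, Fintype.card_fin] at h1
  exact h1

theorem sum_top (n : ℕ) : 2 * ∑ U ∈ connSets (⊤ : SimpleGraph (Fin n)), U.card = n * 2 ^ n := by
  classical
  rw [connSets_top]
  have h0 : ∑ U ∈ Finset.univ.filter (fun U : Finset (Fin n) => U.Nonempty), U.card
      = ∑ U : Finset (Fin n), U.card := by
    rw [Finset.sum_filter]
    refine Finset.sum_congr rfl fun U _ => ?_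
    split_ifs with h
    · rfl
    · rw [Finset.not_nonempty_iff_eq_empty] at h
      simp [h]
  have h1 : ∑ U : Finset (Fin n), U.card = ∑ U : Finset (Fin n), Uᶜ.card :=
    (Function.Involutive.bijective compl_involutive).sum_comp
      (fun U : Finset (Fin n) => U.card) |>.symm
  have h2 : ∑ U : Finset (Fin n), U.card + ∑ U : Finset (Fin n), Uᶜ.card = n * 2 ^ n := by
    rw [← Finset.sum_add_distrib]
    have : ∀ U ∈ (Finset.univ : Finset (Finset (Fin n))), U.card + Uᶜ.card = n := by
      intro U _
      rw [Finset.card_add_card_compl, Fintype.card_fin]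
    rw [Finset.sum_congr rfl this, Finset.sum_const, Finset.card_univ, Fintype.card_finset,
      Fintype.card_fin, smul_eq_mul, mul_comm]
  rw [h0]
  omega

/-- **The density of connected sets in graphs of minimum degree at least three.** -/
theorem result :
    (∀ (V : Type u) [Fintype V] (G : SimpleGraph V), G.Connected →
      (∀ v, 3 ≤ (G.neighborSet v).ncard) →
      (1 : ℝ) / 2 < density G ∧ (1 : ℝ) / 2 + 1 / (2 * (connSets G).card) ≤ density G) ∧
    ∀ n : ℕ, 4 ≤ n → density (⊤ : SimpleGraph (Fin n)) =
      (1 : ℝ) / 2 + 1 / (2 * (connSets (⊤ : SimpleGraph (Fin n))).card) := by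
  refine ⟨?_, ?_⟩
  · intro V _ G hG hdeg
    obtain ⟨v⟩ := hG.nonempty
    have hn : (0 : ℝ) < Fintype.card V := by
      have : 0 < Fintype.card V := Fintype.card_pos_iff.mpr ⟨v⟩
      exact_mod_cast this
    have hN : (0 : ℝ) < (connSets G).card := by
      exact_mod_cast card_pos G v
    have h5 : (Fintype.card V : ℝ) * (connSets G).card + Fintype.card V ≤
        2 * ∑ U ∈ connSets G, (U.card : ℝ) := by
      exact_mod_cast lower G hG hdeg
    have h6 : (1 : ℝ) / 2 + 1 / (2 * (connSets G).card) ≤ density G := by
      unfold density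
      rw [div_div, le_div_iff₀ (mul_pos hN hn)]
      have h7 : ((1 : ℝ) / 2 + 1 / (2 * (connSets G).card)) * ((connSets G).card * Fintype.card V)
          = ((Fintype.card V : ℝ) * (connSets G).card + Fintype.card V) / 2 := by
        field_simp
      rw [h7]
      linarith
    have h8 : (0:ℝ) < 1 / (2 * (connSets G).card) := by positivity
    exact ⟨by linarith, h6⟩
  · intro n hn
    have hn' : (0:ℝ) < n := by
      have : 0 < n := by omega
      exact_mod_cast this
    have hN : (0 : ℝ) < (connSets (⊤ : SimpleGraph (Fin n))).card := by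
      exact_mod_cast card_pos (⊤ : SimpleGraph (Fin n)) ⟨0, by omega⟩
    have h1 : ((connSets (⊤ : SimpleGraph (Fin n))).card : ℝ) + 1 = 2 ^ n := by
      exact_mod_cast card_top n
    have h2 : 2 * ∑ U ∈ connSets (⊤ : SimpleGraph (Fin n)), (U.card : ℝ) = n * 2 ^ n := by
      exact_mod_cast sum_top n
    unfold density
    rw [div_div, div_eq_iff (by rw [Fintype.card_fin]; positivity), Fintype.card_fin]
    have h7 : ((1 : ℝ) / 2 + 1 / (2 * (connSets (⊤ : SimpleGraph (Fin n))).card)) *
        ((connSets (⊤ : SimpleGraph (Fin n))).card * n)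
        = n * ((connSets (⊤ : SimpleGraph (Fin n))).card + 1) / 2 := by
      field_simp
    rw [h7, h1, ← h2]
    ring

end Pool.Agent.Results.MP_2e5503_co.SharpDensity
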